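import Mathlib

/-!
# Chains for multiplicative recurrence (copied from the starting file
`Pool/Agent/Results/MP_369d67_an/MoebiusRecurrence.lean`) and measurable recurrence

For coprime `a₁`, `a₂` there are arbitrarily large finite sets of positive integers such that
`a₂ (v - u) ∣ u` and `a₁ (v - u) ∣ v` for all elements `u < v`. The ratios `v / u` are of the form
`(a n + b) / (a n + d)`, `a = a₁ a₂`, `a₁ ∣ b`, `a₂ ∣ d`. We deduce measurable recurrence.
-/

set_option autoImplicit false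

open MeasureTheory

namespace Pool.Agent.N685.MRec

/-! ### Chains -/

lemma exists_coprime_part (a : ℕ) : ∀ L : ℕ, 0 < L →
    ∃ L₁ K : ℕ, 0 < L₁ ∧ Nat.Coprime L₁ a ∧ L ∣ L₁ * a ^ K := by
  intro L
  induction L using Nat.strong_induction_on with
  | _ L ih =>
    intro hL
    by_cases hc : Nat.Coprime L a
    · exact ⟨L, 0, hL, hc, by simp⟩
    · have hg : 1 < Nat.gcd L a := by
        have h0 : Nat.gcd L a ≠ 0 := Nat.gcd_ne_zero_left hL.ne'
        have h1 : Nat.gcd L a ≠ 1 := hc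
        omega
      obtain ⟨L', hL'⟩ := Nat.gcd_dvd_left L a
      have hL'pos : 0 < L' := by
        rcases Nat.eq_zero_or_pos L' with h | h
        · rw [h, mul_zero] at hL'
          omega
        · exact h
      have hlt : L' < L := by
        calc L' = 1 * L' := (one_mul _).symm
          _ < Nat.gcd L a * L' := Nat.mul_lt_mul_of_pos_right hg hL'pos
          _ = L := hL'.symm
      obtain ⟨L₁, K, h1, h2, h3⟩ := ih L' hlt hL'pos
      refine ⟨L₁, K + 1, h1, h2, ?_⟩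
      have h4 : L ∣ a * (L₁ * a ^ K) := by
        conv_lhs => rw [hL']
        exact Nat.mul_dvd_mul (Nat.gcd_dvd_right L a) h3
      have h5 : a * (L₁ * a ^ K) = L₁ * a ^ (K + 1) := by ring
      rwa [h5] at h4

lemma crt_large (A B e : ℕ) (hA : 0 < A) (hB : 0 < B) (h : Nat.gcd A B ∣ e) (C : ℕ) :
    ∃ N : ℕ, C ≤ N ∧ A ∣ N ∧ B ∣ N + e := by
  have h1 : (Nat.gcd A B : ℤ) ∣ (e : ℤ) := by exact_mod_cast h
  obtain ⟨q, hq⟩ := h1
  have hbez := Nat.gcd_eq_gcd_ab A B
  set x : ℤ := Nat.gcdA A B * q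
  set y : ℤ := Nat.gcdB A B * q
  have he : (e : ℤ) = A * x + B * y := by
    rw [hq, hbez]
    ring
  set k : ℤ := |x| + C
  have hN0 : (C : ℤ) ≤ -(A * x) + A * B * k := by
    have hA1 : (1 : ℤ) ≤ A := by exact_mod_cast hA
    have hB1 : (1 : ℤ) ≤ B := by exact_mod_cast hB
    have hk : (0 : ℤ) ≤ k := by positivity
    have h2 : (A : ℤ) * x ≤ A * |x| := mul_le_mul_of_nonneg_left (le_abs_self x) (by positivity)
    have h3 : (A : ℤ) * k ≤ A * B * k := by nlinarith [mul_nonneg (mul_nonneg (by positivity : (0 : ℤ) ≤ A) (by linarith : (0:ℤ) ≤ (B : ℤ) - 1)) hk]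
    have h4 : (A : ℤ) * k = A * |x| + A * C := by simp only [k]; ring
    have h5 : (C : ℤ) ≤ A * C := by nlinarith [(by positivity : (0 : ℤ) ≤ (C : ℤ))]
    linarith
  refine ⟨(-(A * x) + A * B * k).toNat, ?_, ?_, ?_⟩
  · omega
  · have h6 : (A : ℤ) ∣ ((-(A * x) + A * B * k).toNat : ℤ) := by
      rw [Int.toNat_of_nonneg (by linarith [(by positivity : (0 : ℤ) ≤ (C : ℤ))])]
      exact ⟨-x + B * k, by ring⟩
    exact_mod_cast h6
  · have h6 : (B : ℤ) ∣ (((-(A * x) + A * B * k).toNat + e : ℕ) : ℤ) := by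
      push_cast
      rw [Int.toNat_of_nonneg (by linarith [(by positivity : (0 : ℤ) ≤ (C : ℤ))]), he]
      exact ⟨y + A * k, by ring⟩
    exact_mod_cast h6

/-- the property of a pair `u < v` in a chain -/
def Link (a₁ a₂ H u v : ℕ) : Prop := H * (v - u) ≤ u ∧ a₂ * (v - u) ∣ u ∧ a₁ * (v - u) ∣ v

lemma exists_chain (a₁ a₂ H : ℕ) (h1 : 0 < a₁) (h2 : 0 < a₂) (hH : 0 < H)
    (hco : Nat.Coprime a₁ a₂) :
    ∀ r : ℕ, ∃ s : Finset ℕ, s.card = r ∧ (∀ u ∈ s, 0 < u) ∧
      ∀ u ∈ s, ∀ v ∈ s, u < v → Link a₁ a₂ H u v := by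
  intro r
  induction r with
  | zero => exact ⟨∅, rfl, by simp, by simp⟩
  | succ r ih =>
    obtain ⟨s, hs, -, hlink⟩ := ih
    set L : ℕ := ∏ u ∈ s, ∏ v ∈ s, (if u < v then a₁ * a₂ * (v - u) else 1) with hL
    have hLpos : 0 < L := by
      refine Finset.prod_pos fun u _ => Finset.prod_pos fun v _ => ?_
      split_ifs with h
      · have : 0 < v - u := by omega
        positivity
      · exact one_pos
    have hLdvd : ∀ u ∈ s, ∀ v ∈ s, u < v → a₁ * a₂ * (v - u) ∣ L := by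
      intro u hu v hv huv
      have e1 : (if u < v then a₁ * a₂ * (v - u) else 1) = a₁ * a₂ * (v - u) := if_pos huv
      rw [← e1]
      exact (Finset.dvd_prod_of_mem (fun v => if u < v then a₁ * a₂ * (v - u) else 1) hv).trans
        (Finset.dvd_prod_of_mem (fun u => ∏ v ∈ s, (if u < v then a₁ * a₂ * (v - u) else 1)) hu)
    obtain ⟨L₁, K, hL₁, hL₁c, hL₁d⟩ := exists_coprime_part a₂ L hLpos
    set e : ℕ := L₁ * (1 + a₂ * ∑ u ∈ s, u) with he
    have hec : Nat.Coprime e a₂ := by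
      refine Nat.Coprime.mul_left hL₁c ?_
      rw [Nat.coprime_add_mul_left_left]
      exact Nat.coprime_one_left a₂
    have hlt : ∀ u ∈ s, a₂ * u < e := by
      intro u hu
      have h3 : u ≤ ∑ u ∈ s, u := Finset.single_le_sum (f := fun u => u) (fun _ _ => Nat.zero_le _) hu
      have h4 : a₂ * u ≤ a₂ * ∑ u ∈ s, u := Nat.mul_le_mul_left _ h3
      have h5 : 1 + a₂ * ∑ u ∈ s, u ≤ e := Nat.le_mul_of_pos_left _ hL₁
      omega
    have hepos : 0 < e := by positivity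
    have hDc : ∀ u ∈ s, Nat.Coprime (e - a₂ * u) a₂ := by
      intro u hu
      have h3 : (e - a₂ * u) + a₂ * u = e := Nat.sub_add_cancel (hlt u hu).le
      have h4 : Nat.Coprime ((e - a₂ * u) + a₂ * u) a₂ := by rw [h3]; exact hec
      rwa [Nat.coprime_add_mul_left_left] at h4
    set D : ℕ := ∏ u ∈ s, (e - a₂ * u) with hD
    have hDpos : 0 < D := Finset.prod_pos fun u hu => by have := hlt u hu; omega
    have hDc' : Nat.Coprime D a₂ := Nat.Coprime.prod_left hDc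
    have hgcd : Nat.gcd (a₂ * L) (a₁ * D) ∣ e := by
      have h3 : Nat.Coprime (Nat.gcd (a₂ * L) (a₁ * D)) a₂ := by
        have h4 : Nat.Coprime (a₁ * D) a₂ := Nat.Coprime.mul_left hco hDc'
        exact Nat.Coprime.coprime_dvd_left (Nat.gcd_dvd_right _ _) h4
      have h4 : Nat.gcd (a₂ * L) (a₁ * D) ∣ a₂ ^ (K + 1) * L₁ := by
        refine (Nat.gcd_dvd_left _ _).trans ?_
        have : a₂ ^ (K + 1) * L₁ = a₂ * (L₁ * a₂ ^ K) := by ring
        rw [this]
        exact Nat.mul_dvd_mul_left _ hL₁d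
      have h5 : Nat.gcd (a₂ * L) (a₁ * D) ∣ L₁ :=
        Nat.Coprime.dvd_of_dvd_mul_left (h3.pow_right (K + 1)) h4
      exact h5.trans (Dvd.intro _ rfl)
    obtain ⟨N, hNC, hN1, hN2⟩ := crt_large (a₂ * L) (a₁ * D) e (by positivity) (by positivity) hgcd
      (H * e)
    have hdvdD : ∀ u ∈ s, e - a₂ * u ∣ D := fun u hu => Finset.dvd_prod_of_mem _ hu
    have hinj : Function.Injective (fun u : ℕ => N + a₂ * u) := by
      intro u v huv
      have : a₂ * u = a₂ * v := by simpa using huv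
      exact Nat.eq_of_mul_eq_mul_left h2 this
    have hnotmem : N + e ∉ s.image (fun u => N + a₂ * u) := by
      intro h
      obtain ⟨u, hu, huv⟩ := Finset.mem_image.1 h
      have := hlt u hu
      omega
    have hN0 : 0 < N := lt_of_lt_of_le (by positivity) hNC
    refine ⟨insert (N + e) (s.image (fun u => N + a₂ * u)), ?_, ?_, ?_⟩
    · rw [Finset.card_insert_of_notMem hnotmem, Finset.card_image_of_injective _ hinj, hs]
    · intro u' hu'
      rw [Finset.mem_insert] at hu'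
      rcases hu' with rfl | hu'
      · omega
      · obtain ⟨u, hu, rfl⟩ := Finset.mem_image.1 hu'
        exact Nat.add_pos_left hN0 _
    · intro u' hu' v' hv' huv'
      rw [Finset.mem_insert] at hu' hv'
      rcases hu' with rfl | hu'
      · rcases hv' with rfl | hv'
        · exact absurd huv' (lt_irrefl _)
        · obtain ⟨v, hv, rfl⟩ := Finset.mem_image.1 hv'
          have h3 := hlt v hv
          have h4 : N + e < N + a₂ * v := huv'
          omega
      · obtain ⟨u, hu, rfl⟩ := Finset.mem_image.1 hu'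
        rcases hv' with rfl | hv'
        · -- the new largest element
          have hu3 := hlt u hu
          have e1 : N + e - (N + a₂ * u) = e - a₂ * u := by omega
          refine ⟨?_, ?_, ?_⟩
          · show H * (N + e - (N + a₂ * u)) ≤ N + a₂ * u
            rw [e1]
            have : H * (e - a₂ * u) ≤ H * e := Nat.mul_le_mul_left _ (Nat.sub_le _ _)
            omega
          · show a₂ * (N + e - (N + a₂ * u)) ∣ N + a₂ * u
            rw [e1]
            refine Nat.Coprime.mul_dvd_of_dvd_of_dvd (hDc u hu).symm ?_ ?_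
            · exact Nat.dvd_add ((Dvd.intro _ rfl).trans hN1) (Dvd.intro _ rfl)
            · have h3 : e - a₂ * u ∣ N + e := ((hdvdD u hu).trans (Dvd.intro_left _ rfl)).trans hN2
              have h4 : N + e = (N + a₂ * u) + (e - a₂ * u) := by omega
              rw [h4] at h3
              exact (Nat.dvd_add_left (dvd_refl _)).1 h3
          · show a₁ * (N + e - (N + a₂ * u)) ∣ N + e
            rw [e1]
            exact (Nat.mul_dvd_mul_left _ (hdvdD u hu)).trans hN2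
        · obtain ⟨v, hv, rfl⟩ := Finset.mem_image.1 hv'
          have huv : u < v := by
            have h4 : N + a₂ * u < N + a₂ * v := huv'
            have : a₂ * u < a₂ * v := by omega
            exact Nat.lt_of_mul_lt_mul_left this
          obtain ⟨l1, l2, l3⟩ := hlink u hu v hv huv
          have e1 : N + a₂ * v - (N + a₂ * u) = a₂ * (v - u) := by
            rw [Nat.mul_sub]
            omega
          have hdL := hLdvd u hu v hv huv
          refine ⟨?_, ?_, ?_⟩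
          · show H * (N + a₂ * v - (N + a₂ * u)) ≤ N + a₂ * u
            rw [e1]
            have h3 : a₂ * (v - u) ≤ e := by
              have := hlt v hv
              have : a₂ * (v - u) ≤ a₂ * v := Nat.mul_le_mul_left _ (Nat.sub_le _ _)
              omega
            have : H * (a₂ * (v - u)) ≤ H * e := Nat.mul_le_mul_left _ h3
            omega
          · show a₂ * (N + a₂ * v - (N + a₂ * u)) ∣ N + a₂ * u
            rw [e1]
            refine Nat.dvd_add ?_ (Nat.mul_dvd_mul_left _ l2)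
            refine dvd_trans (Nat.mul_dvd_mul_left _ ?_) hN1
            exact (Dvd.intro_left a₁ (by ring)).trans hdL
          · show a₁ * (N + a₂ * v - (N + a₂ * u)) ∣ N + a₂ * v
            rw [e1]
            have e2 : a₁ * (a₂ * (v - u)) = a₂ * (a₁ * (v - u)) := by ring
            refine Nat.dvd_add ?_ ?_
            · refine dvd_trans ?_ hN1
              rw [← mul_assoc]
              exact hdL.trans (Dvd.intro_left _ rfl)
            · rw [e2]
              exact Nat.mul_dvd_mul_left _ l3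

/-- the quotient of a link lies in `S` -/
lemma link_mem (a₁ a₂ : ℕ) (h1 : 0 < a₁) (h2 : 0 < a₂) (hco : Nat.Coprime a₁ a₂) (b d : ℤ)
    (hb : (a₁ : ℤ) ∣ b) (hd : (a₂ : ℤ) ∣ d) (hbd : d < b) (u v : ℕ) (huv : u < v)
    (hl : Link a₁ a₂ (a₁ * a₂ + d.natAbs) u v) :
    ∃ n : ℕ, 1 ≤ n ∧ 0 < ((a₁ * a₂ : ℕ) : ℤ) * n + b ∧ 0 < ((a₁ * a₂ : ℕ) : ℤ) * n + d ∧
      (v : ℚ) / u = ((((a₁ * a₂ : ℕ) : ℤ) * n + b : ℤ) : ℚ) / ((((a₁ * a₂ : ℕ) : ℤ) * n + d : ℤ) : ℚ) := by
  obtain ⟨l1, l2, l3⟩ := hl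
  obtain ⟨w, hw⟩ : ∃ w, v = u + w := ⟨v - u, by omega⟩
  have hw0 : 0 < w := by omega
  have e1 : v - u = w := by omega
  rw [e1] at l1 l2 l3
  obtain ⟨k, hk⟩ := l2
  obtain ⟨l, hl⟩ := l3
  -- `u = a₂ w k`, `v = a₁ w l`
  have hkl : a₂ * k + 1 = a₁ * l := by
    have h3 : w * (a₂ * k + 1) = w * (a₁ * l) := by
      calc w * (a₂ * k + 1) = a₂ * w * k + w := by ring
        _ = v := by rw [← hk, hw]
        _ = w * (a₁ * l) := by rw [hl]; ring
    exact Nat.eq_of_mul_eq_mul_left hw0 h3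
  set δ : ℤ := b - d with hδ
  have hδ0 : 0 < δ := by omega
  -- `m = δ a₂ k` is `≡ d` modulo `a₁ a₂`
  have hm1 : (a₂ : ℤ) ∣ δ * (a₂ * k) - d := dvd_sub ⟨δ * k, by ring⟩ hd
  have hm2 : (a₁ : ℤ) ∣ δ * (a₂ * k) - d := by
    have h3 : δ * (a₂ * k) - d = δ * (a₁ * l) - b := by
      have : (a₂ : ℤ) * k + 1 = a₁ * l := by exact_mod_cast hkl
      have h4 : (a₂ : ℤ) * k = a₁ * l - 1 := by linarith
      rw [h4, hδ]
      ring
    rw [h3]
    exact dvd_sub ⟨δ * l, by ring⟩ hb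
  have hm : ((a₁ * a₂ : ℕ) : ℤ) ∣ δ * (a₂ * k) - d := by
    push_cast
    exact IsCoprime.mul_dvd (Nat.isCoprime_iff_coprime.2 hco) hm2 hm1
  obtain ⟨n, hn⟩ := hm
  have hbig : ((a₁ * a₂ : ℕ) : ℤ) + |d| ≤ δ * (a₂ * k) := by
    have h3 : (a₁ * a₂ + d.natAbs) * w ≤ (a₂ * k) * w := by
      calc (a₁ * a₂ + d.natAbs) * w ≤ u := l1
        _ = (a₂ * k) * w := by rw [hk]; ring
    have h4 : a₁ * a₂ + d.natAbs ≤ a₂ * k := Nat.le_of_mul_le_mul_right h3 hw0
    have h5 : ((a₁ * a₂ : ℕ) : ℤ) + |d| ≤ (a₂ * k : ℤ) := by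
      rw [Int.abs_eq_natAbs]
      exact_mod_cast h4
    have h6 : (0 : ℤ) ≤ (a₂ * k : ℤ) := by positivity
    nlinarith
  have hA : (0 : ℤ) < ((a₁ * a₂ : ℕ) : ℤ) := by positivity
  have hn1 : 1 ≤ n := by
    by_contra hcon
    have h3 : n ≤ 0 := by omega
    have h4 : ((a₁ * a₂ : ℕ) : ℤ) * n ≤ 0 := mul_nonpos_of_nonneg_of_nonpos hA.le h3
    have h5 := neg_abs_le d
    have h6 := le_abs_self d
    linarith
  obtain ⟨n', rfl⟩ : ∃ n' : ℕ, n = n' := ⟨n.toNat, by omega⟩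
  have hmd : ((a₁ * a₂ : ℕ) : ℤ) * n' + d = δ * (a₂ * k) := by linarith
  have hmb : ((a₁ * a₂ : ℕ) : ℤ) * n' + b = δ * (a₂ * k + 1) := by
    have : b = d + δ := by omega
    rw [this]
    linarith
  have hpos : 0 < δ * ((a₂ : ℤ) * k) := by
    have := abs_nonneg d
    linarith
  refine ⟨n', by exact_mod_cast hn1, ?_, ?_, ?_⟩
  · rw [hmb]
    have : δ * ((a₂ : ℤ) * k + 1) = δ * (a₂ * k) + δ := by ring
    rw [this]
    linarith
  · rw [hmd]
    exact hpos
  · rw [hmb, hmd]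
    have h3 : (u : ℚ) = w * (a₂ * k) := by
      have : u = w * (a₂ * k) := by rw [hk]; ring
      exact_mod_cast this
    have h4 : (v : ℚ) = w * (a₂ * k + 1) := by
      have : v = w * (a₂ * k + 1) := by
        rw [hw, hk]; ring
      exact_mod_cast this
    have h5 : (w : ℚ) ≠ 0 := by exact_mod_cast hw0.ne'
    have h6 : (δ : ℚ) ≠ 0 := by exact_mod_cast hδ0.ne'
    rw [h3, h4]
    push_cast
    rw [mul_div_mul_left _ _ h5, mul_div_mul_left _ _ h6]


/-- positive measure returns along the ratios of a large finite set of positive integers -/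
lemma exists_pair {X : Type} [MeasurableSpace X] (μ : Measure X) [IsProbabilityMeasure μ]
    (T : ℚ → X → X) (hT : ∀ q : ℚ, 0 < q → MeasurePreserving (T q) μ μ)
    (A : Set X) (hA : MeasurableSet A) (hpos : 0 < μ A) :
    ∃ r : ℕ, ∀ s : Finset ℕ, s.card = r → (∀ u ∈ s, 0 < u) →
      ∃ u ∈ s, ∃ v ∈ s, u < v ∧ 0 < μ (T u ⁻¹' A ∩ T v ⁻¹' A) := by
  obtain ⟨r, hr⟩ := ENNReal.exists_nat_mul_gt hpos.ne' ENNReal.one_ne_top
  refine ⟨r, fun s hs hs0 => ?_⟩
  by_contra hcon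
  push Not at hcon
  have hdis : (s : Set ℕ).Pairwise (Function.onFun (AEDisjoint μ) (fun u : ℕ => T (u : ℚ) ⁻¹' A)) := by
    intro u hu v hv huv
    rcases lt_or_gt_of_ne huv with h | h
    · exact le_antisymm (hcon u hu v hv h) zero_le
    · have := le_antisymm (hcon v hv u hu h) zero_le
      show μ _ = 0
      rw [Set.inter_comm]
      exact this
  have hmeas : ∀ u ∈ s, NullMeasurableSet (T (u : ℚ) ⁻¹' A) μ := fun u hu =>
    ((hT u (by exact_mod_cast hs0 u hu)).measurable hA).nullMeasurableSet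
  have h1 := measure_biUnion_finset₀ hdis hmeas
  have h2 : ∑ u ∈ s, μ (T (u : ℚ) ⁻¹' A) = r * μ A := by
    have h4 : ∀ u ∈ s, μ (T (u : ℚ) ⁻¹' A) = μ A := fun u hu =>
      (hT (u : ℚ) (by exact_mod_cast hs0 u hu)).measure_preimage hA.nullMeasurableSet
    rw [Finset.sum_congr rfl h4, Finset.sum_const, hs, nsmul_eq_mul]
  rw [h2] at h1
  have h3 : μ (⋃ u ∈ s, T (u : ℚ) ⁻¹' A) ≤ 1 := prob_le_one
  rw [h1] at h3
  exact absurd hr (not_lt.2 h3)

lemma transfer {X : Type} [MeasurableSpace X] (μ : Measure X)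
    (T : ℚ → X → X) (hmul : ∀ q r : ℚ, 0 < q → 0 < r → T (q * r) = T q ∘ T r)
    (hT : ∀ q : ℚ, 0 < q → MeasurePreserving (T q) μ μ)
    (A : Set X) (hA : MeasurableSet A) (u v : ℚ) (hu : 0 < u) (hv : 0 < v)
    (h : 0 < μ (T u ⁻¹' A ∩ T v ⁻¹' A)) : 0 < μ (A ∩ T (v / u) ⁻¹' A) := by
  have e : T v = T (v / u) ∘ T u := by
    rw [← hmul _ _ (div_pos hv hu) hu, div_mul_cancel₀ _ hu.ne']
  have e2 : T u ⁻¹' A ∩ T v ⁻¹' A = T u ⁻¹' (A ∩ T (v / u) ⁻¹' A) := by
    rw [e, Set.preimage_inter, Set.preimage_comp]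
  rw [e2, (hT u hu).measure_preimage
    (hA.inter ((hT _ (div_pos hv hu)).measurable hA)).nullMeasurableSet] at h
  exact h

/-- coprime decomposition -/
lemma split (a : ℕ) (b d : ℤ) (ha : 0 < a)
    (hg : ∀ k : ℤ, k ∣ (a : ℤ) → k ∣ b → k ∣ d → IsUnit k) (h : (a : ℤ) ∣ b * d) :
    ∃ a₁ a₂ : ℕ, a₁ * a₂ = a ∧ Nat.Coprime a₁ a₂ ∧ (a₁ : ℤ) ∣ b ∧ (a₂ : ℤ) ∣ d := by
  have hga : Int.gcd a b ∣ a := by
    have := Int.gcd_dvd_left (a : ℤ) b
    exact_mod_cast this
  obtain ⟨a₂, ha₂⟩ := hga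
  have hb : ((Int.gcd a b : ℕ) : ℤ) ∣ b := Int.gcd_dvd_right (a : ℤ) b
  have hgpos : 0 < Int.gcd a b := Int.gcd_pos_of_ne_zero_left _ (by exact_mod_cast ha.ne')
  have hd : (a₂ : ℤ) ∣ d := by
    obtain ⟨b', hb'⟩ := hb
    have hcop : IsCoprime (a₂ : ℤ) b' := by
      rw [Int.isCoprime_iff_gcd_eq_one]
      have h1 : Int.gcd ((Int.gcd a b : ℕ) * (a₂ : ℤ)) ((Int.gcd a b : ℕ) * b') = Int.gcd a b := by
        rw [← hb']
        congr 1
        exact_mod_cast ha₂.symm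
      rw [Int.gcd_mul_left] at h1
      have h2 : (Int.gcd a b) * Int.gcd (a₂ : ℤ) b' = Int.gcd a b * 1 := by
        simpa using h1
      exact Nat.eq_of_mul_eq_mul_left hgpos h2
    have h3 : ((Int.gcd a b : ℕ) : ℤ) * a₂ ∣ (Int.gcd a b : ℕ) * (b' * d) := by
      have h4 : (a : ℤ) = ((Int.gcd a b : ℕ) : ℤ) * a₂ := by exact_mod_cast ha₂
      rw [← h4, ← mul_assoc, ← hb']
      exact h
    have h5 : (a₂ : ℤ) ∣ b' * d :=
      (mul_dvd_mul_iff_left (by exact_mod_cast hgpos.ne')).1 h3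
    exact hcop.dvd_of_dvd_mul_left h5
  refine ⟨Int.gcd a b, a₂, ha₂.symm, ?_, hb, hd⟩
  have h6 : IsUnit ((Nat.gcd (Int.gcd a b) a₂ : ℕ) : ℤ) := by
    refine hg _ ?_ ?_ ?_
    · have : Nat.gcd (Int.gcd a b) a₂ ∣ a := (Nat.gcd_dvd_left _ _).trans ⟨a₂, ha₂⟩
      exact_mod_cast this
    · exact (Int.natCast_dvd_natCast.2 (Nat.gcd_dvd_left _ _)).trans hb
    · exact (Int.natCast_dvd_natCast.2 (Nat.gcd_dvd_right _ _)).trans hd
  rw [Int.ofNat_isUnit, Nat.isUnit_iff] at h6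
  exact h6

end Pool.Agent.N685.MRec
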