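import Mathlib

set_option autoImplicit false

namespace Pool.Agent.N685.PS

/-- first inequality -/
theorem first (m n : ℕ) (h : 2 * (m - 2) ^ n < (m - 1) ^ n) (hm : 3 ≤ m) :
    ∑ i ∈ Finset.Icc 1 (m - 2), i ^ n < (m - 1) ^ n := by
  have hl : ∀ l : ℕ, l + 2 ≤ m → 2 * l ^ n ≤ (l + 1) ^ n := by
    intro l hl
    -- l / (l+1) ≤ (m-2)/(m-1)
    have h1 : l * (m - 1) ≤ (l + 1) * (m - 2) := by
      obtain ⟨t, rfl⟩ : ∃ t, m = t + 2 := ⟨m - 2, by omega⟩
      have : l ≤ t := by omega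
      have e1 : t + 2 - 1 = t + 1 := by omega
      have e2 : t + 2 - 2 = t := by omega
      rw [e1, e2]
      nlinarith
    have h2 : l ^ n * (m - 1) ^ n ≤ (l + 1) ^ n * (m - 2) ^ n := by
      rw [← mul_pow, ← mul_pow]
      exact Nat.pow_le_pow_left h1 n
    have h3 : 0 < (m - 1) ^ n := Nat.pow_pos (by omega)
    by_contra hcon
    rw [not_le] at hcon
    have h4 : (l + 1) ^ n * (m - 2) ^ n * 2 ≤ (l + 1) ^ n * (m - 1) ^ n := by
      rw [mul_assoc]
      exact Nat.mul_le_mul_left _ (by omega)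
    have h5 : (l + 1) ^ n * (m - 1) ^ n < 2 * l ^ n * (m - 1) ^ n :=
      Nat.mul_lt_mul_of_pos_right hcon h3
    have h6 : 2 * l ^ n * (m - 1) ^ n ≤ (l + 1) ^ n * (m - 2) ^ n * 2 := by nlinarith
    omega
  have key : ∀ k : ℕ, k + 2 ≤ m → ∑ i ∈ Finset.Icc 1 k, i ^ n < (k + 1) ^ n := by
    intro k
    induction k with
    | zero => intro _; simp
    | succ k ih =>
      intro hk
      rw [Finset.sum_Icc_succ_top (by omega)]
      have h1 := ih (by omega)
      have h2 := hl (k + 1) hk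
      omega
  have := key (m - 2) (by omega)
  have e : m - 2 + 1 = m - 1 := by omega
  rwa [e] at this

end Pool.Agent.N685.PS
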