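import Mathlib

set_option autoImplicit false

namespace Pool.Agent.N685.PS

open Real

/-- the subsolution as a function of `z = i / m`, `e = 1 / m` -/
noncomputable def W (L e z : ℝ) : ℝ :=
  1 - 2*L*z + (L^2*(3*z^2+4*z*e+6*e^2) - L*(2*z^2+z*e+4*e^2))
    - (4*(z-e)^3 + 18*(z-e)^2*e + 54*(z-e)*e^2 + 80*e^3)

noncomputable def Es (L e u : ℝ) : ℝ :=
  1 - L*u*(1+u+e/2) - 2*L*u*(u+e)^2 + L^2*u^2/2 - 4/3*L^3*u^3

theorem exp_low {s : ℝ} (hs : 0 ≤ s) : 1 - s + s^2/2 - s^3/6 ≤ exp (-s) := by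
  have hq : ∀ t : ℝ, 0 ≤ t → exp (-t) ≤ 1 - t + t^2/2 := by
    intro t ht
    have h1 := Real.quadratic_le_exp_of_nonneg ht
    have h2 : 0 < exp t := exp_pos t
    have h3 : exp (-t) * exp t = 1 := by rw [← exp_add]; simp
    have h4 : (1 - t + t^2/2) * exp t ≥ 1 := by
      have : (1 - t + t^2/2) * (1 + t + t^2/2) ≥ 1 := by nlinarith [sq_nonneg (t^2)]
      have h5 : 0 ≤ 1 - t + t^2/2 := by nlinarith [sq_nonneg (t-1)]
      nlinarith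
    by_contra hcon
    rw [not_le] at hcon
    nlinarith
  -- monotonicity
  have hmono : MonotoneOn (fun t : ℝ => exp (-t) - (1 - t + t^2/2 - t^3/6)) (Set.Ici 0) := by
    apply monotoneOn_of_deriv_nonneg (convex_Ici 0)
    · fun_prop
    · fun_prop
    · intro t ht
      rw [interior_Ici, Set.mem_Ioi] at ht
      have hd : HasDerivAt (fun t : ℝ => exp (-t) - (1 - t + t^2/2 - t^3/6))
          (exp (-t) * (-1) - (0 - 1 + (2 * t ^ 1 * 1)/2 - (3 * t^2 * 1)/6)) t := by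
        refine ((hasDerivAt_id t).neg.exp).sub ?_
        refine ((((hasDerivAt_const t (1:ℝ)).sub (hasDerivAt_id t)).add ?_).sub ?_)
        · exact ((hasDerivAt_id t).pow 2).div_const 2
        · exact ((hasDerivAt_id t).pow 3).div_const 6
      rw [hd.deriv]
      have := hq t ht.le
      nlinarith
  have := hmono (Set.mem_Ici.2 le_rfl) (Set.mem_Ici.2 hs) hs
  simp at this
  linarith

theorem L_lo : (0.6931471803 : ℝ) < log 2 := Real.log_two_gt_d9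
theorem L_hi : log 2 < (0.6931471808 : ℝ) := Real.log_two_lt_d9

/-- lower bound for `exp (-L σ)` -/
theorem exp_Es {L e u σ : ℝ} (hL : 0 < L) (he : 0 < e) (hu : 0 ≤ u) (hue : u + e ≤ 1/2)
    (hσ : σ * (1 - u - e) = u * (1 - e/2)) : Es L e u ≤ exp (-(L*σ)) := by
  have hd : 0 < 1 - u - e := by linarith
  have h1 : u ≤ σ := by
    by_contra hcon
    rw [not_le] at hcon
    nlinarith
  have h2 : σ ≤ 2 * u := by
    by_contra hcon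
    rw [not_le] at hcon
    nlinarith
  have h3 : σ ≤ u * (1 + u + e/2 + 2*(u+e)^2) := by
    have h4 : (1 - e/2) ≤ (1 + u + e/2 + 2*(u+e)^2) * (1 - u - e) := by
      nlinarith [sq_nonneg (u+e), mul_nonneg (sq_nonneg (u+e)) (by linarith : 0 ≤ 1/2 - (u+e)),
        mul_nonneg hu he.le]
    have h5 : σ * (1 - u - e) ≤ u * (1 + u + e/2 + 2*(u+e)^2) * (1 - u - e) := by
      rw [hσ]; nlinarith
    exact le_of_mul_le_mul_right h5 hd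
  have hσ0 : 0 ≤ σ := hu.trans h1
  have hs : 0 ≤ L * σ := by positivity
  refine le_trans ?_ (exp_low hs)
  unfold Es
  have a1 : L * σ ≤ L * (u * (1 + u + e/2 + 2*(u+e)^2)) := mul_le_mul_of_nonneg_left h3 hL.le
  have a2 : L^2*u^2 ≤ (L*σ)^2 := by
    rw [← mul_pow]
    exact pow_le_pow_left₀ (by positivity) (mul_le_mul_of_nonneg_left h1 hL.le) 2
  have a3 : (L*σ)^3 ≤ (L*(2*u))^3 := 
    pow_le_pow_left₀ hs (mul_le_mul_of_nonneg_left h2 hL.le) 3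
  nlinarith


theorem powL {L : ℝ} (h1 : (0.693147 : ℝ) < L) (h2 : L < (0.693148 : ℝ)) :
    (0.480452 < L^2 ∧ L^2 < 0.480455) ∧ (0.333023 < L^3 ∧ L^3 < 0.333027) ∧
    (0.230833 < L^4 ∧ L^4 < 0.230838) ∧ (0.160001 < L^5 ∧ L^5 < 0.160006) := by
  have a2 : 0.480452 < L^2 ∧ L^2 < 0.480455 := by constructor <;> nlinarith
  have a3 : 0.333023 < L^3 ∧ L^3 < 0.333027 := by
    have : L^3 = L^2 * L := by ring
    rw [this]
    constructor <;> nlinarith [a2.1, a2.2]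
  have a4 : 0.230833 < L^4 ∧ L^4 < 0.230838 := by
    have : L^4 = L^3 * L := by ring
    rw [this]
    constructor <;> nlinarith [a3.1, a3.2]
  have a5 : 0.160001 < L^5 ∧ L^5 < 0.160006 := by
    have : L^5 = L^4 * L := by ring
    rw [this]
    constructor <;> nlinarith [a4.1, a4.2]
  exact ⟨a2, a3, a4, a5⟩

theorem step_poly {L e u : ℝ} (h1 : (0.693147 : ℝ) < L) (h2 : L < (0.693148 : ℝ)) (he : 0 < e)
    (hu : 0 ≤ u) : 2 * W L e (u + e) ≤ Es L e u * (1 + W L e (u + 2 * e)) := by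
  obtain ⟨⟨a2, b2⟩, ⟨a3, b3⟩, ⟨a4, b4⟩, ⟨a5, b5⟩⟩ := powL h1 h2
  have key : Es L e u * (1 + W L e (u + 2 * e)) - 2 * W L e (u + e) =
      4*e^3 + (6 - 4*L + 16*L^2 - 26*L^3)*(u*e^2) + (6 - 8*L + 14*L^2 - 18*L^3)*(u^2*e)
      + (4 - 4*L + 4*L^2 - 20/3*L^3)*u^3 + (156*L + 15*L^2 - 13*L^3)*(u*e^3)
      + (102*L + 77/2*L^2 - 41*L^3 + 13*L^4)*(u^2*e^2)
      + (30*L + 26*L^2 - 22*L^3 + 40/3*L^4)*(u^3*e)
      + (4*L + 6*L^2 - 4*L^3 + 25/6*L^4)*u^4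
      + (78*L + 28*L^2 - 52*L^3)*(u*e^4)
      + (207*L - 4*L^2 - 136*L^3)*(u^2*e^3)
      + (117*L + 17*L^2 - 122*L^3 + 56/3*L^4 - 104/3*L^5)*(u^3*e^2)
      + (32*L + 11*L^2 - 44*L^3 + 12*L^4 - 64/3*L^5)*(u^4*e)
      + (4*L + 2*L^2 - 6*L^3 + 8/3*L^4 - 4*L^5)*u^5
      + (312*L)*(u*e^5) + (828*L)*(u^2*e^4) + (780*L + 208*L^3)*(u^3*e^3)
      + (332*L + 136*L^3)*(u^4*e^2) + (76*L + 40*L^3)*(u^5*e) + (8*L + 16/3*L^3)*u^6 := by
    unfold W Es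
    ring
  have c1 : 0 ≤ (6 - 4*L + 16*L^2 - 26*L^3) := by linarith
  have c2 : 0 ≤ (6 - 8*L + 14*L^2 - 18*L^3) := by linarith
  have c3 : 0 ≤ (4 - 4*L + 4*L^2 - 20/3*L^3) := by linarith
  have c4 : 0 ≤ (156*L + 15*L^2 - 13*L^3) := by linarith
  have c5 : 0 ≤ (102*L + 77/2*L^2 - 41*L^3 + 13*L^4) := by linarith
  have c6 : 0 ≤ (30*L + 26*L^2 - 22*L^3 + 40/3*L^4) := by linarith
  have c7 : 0 ≤ (4*L + 6*L^2 - 4*L^3 + 25/6*L^4) := by linarith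
  have c8 : 0 ≤ (78*L + 28*L^2 - 52*L^3) := by linarith
  have c9 : 0 ≤ (207*L - 4*L^2 - 136*L^3) := by linarith
  have c10 : 0 ≤ (117*L + 17*L^2 - 122*L^3 + 56/3*L^4 - 104/3*L^5) := by linarith
  have c11 : 0 ≤ (32*L + 11*L^2 - 44*L^3 + 12*L^4 - 64/3*L^5) := by linarith
  have c12 : 0 ≤ (4*L + 2*L^2 - 6*L^3 + 8/3*L^4 - 4*L^5) := by linarith
  have c13 : 0 ≤ L := by linarith
  have : 0 ≤ Es L e u * (1 + W L e (u + 2 * e)) - 2 * W L e (u + e) := by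
    rw [key]
    positivity
  linarith

/-- `W ≤ 0` for `z ≥ 1/2`. -/
theorem W_nonpos {L e z : ℝ} (h1 : (0.693147 : ℝ) < L) (h2 : L < (0.693148 : ℝ)) (he : 0 < e)
    (he2 : e ≤ 1/400) (hz : 1/2 ≤ z) (hz1 : z ≤ 1) : W L e z ≤ 0 := by
  obtain ⟨⟨a2, b2⟩, ⟨a3, b3⟩, ⟨a4, b4⟩, ⟨a5, b5⟩⟩ := powL h1 h2
  have hze : (199:ℝ)/400 ≤ z - e := by linarith
  have p3 : ((199:ℝ)/400)^3 ≤ (z-e)^3 := pow_le_pow_left₀ (by norm_num) hze 3
  have p2 : 0 ≤ 18*(z-e)^2*e := by positivity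
  have p1 : 0 ≤ 54*(z-e)*e^2 := by
    have : 0 ≤ z - e := by linarith
    positivity
  have p0 : 0 ≤ 80*e^3 := by positivity
  have q1 : L^2*(3*z^2+4*z*e+6*e^2) - L*(2*z^2+z*e+4*e^2) ≤ 0.06 * z^2 + 2 * e := by
    have : L^2*(3*z^2+4*z*e+6*e^2) - L*(2*z^2+z*e+4*e^2) =
      (3*L^2 - 2*L)*z^2 + (4*L^2 - L)*(z*e) + (6*L^2-4*L)*e^2 := by ring
    rw [this]
    have d1 : (3*L^2 - 2*L)*z^2 ≤ 0.06*z^2 := by
      apply mul_le_mul_of_nonneg_right _ (sq_nonneg z)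
      linarith
    have d2 : (4*L^2 - L)*(z*e) ≤ 1.3 * (1*e) := by
      have h3 : z * e ≤ 1 * e := mul_le_mul_of_nonneg_right hz1 he.le
      have h4 : 0 ≤ z * e := by positivity
      have : 4*L^2 - L ≤ 1.3 := by linarith
      have : 0 ≤ 4*L^2 - L := by linarith
      nlinarith
    have d3 : (6*L^2-4*L)*e^2 ≤ 0.12 * e := by
      have : e^2 ≤ e := by nlinarith
      have h5 : 6*L^2 - 4*L ≤ 0.12 := by linarith
      have h6 : 0 ≤ 6*L^2 - 4*L := by linarith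
      nlinarith
    linarith
  have q2 : 2*L*z ≥ 1.386294 * z := by nlinarith
  unfold W
  have q3 : 0.06*z^2 ≤ 0.06*z := by nlinarith
  norm_num at p3
  nlinarith

/-- `W ≥ -1`. -/
theorem W_ge {L e z : ℝ} (h1 : (0.693147 : ℝ) < L) (h2 : L < (0.693148 : ℝ)) (he : 0 < e)
    (he2 : e ≤ 1/400) (hz0 : e ≤ z) (hz : z ≤ 1/2 + e) : -1 ≤ W L e z := by
  obtain ⟨⟨a2, b2⟩, ⟨a3, b3⟩, ⟨a4, b4⟩, ⟨a5, b5⟩⟩ := powL h1 h2
  have hze : z - e ≤ 1/2 := by linarith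
  have hze0 : 0 ≤ z - e := by linarith
  have p3 : (z-e)^3 ≤ (1/2 : ℝ)^3 := pow_le_pow_left₀ hze0 hze 3
  have p2 : (z-e)^2 ≤ (1/2 : ℝ)^2 := pow_le_pow_left₀ hze0 hze 2
  have p2' : 18*(z-e)^2*e ≤ 18 * (1/2 : ℝ)^2 * (1/400) := by
    have : 0 ≤ (z-e)^2 := sq_nonneg _
    nlinarith
  have ee : e^2 ≤ (1/400:ℝ)^2 := pow_le_pow_left₀ he.le he2 2
  have eee : e^3 ≤ (1/400:ℝ)^3 := pow_le_pow_left₀ he.le he2 3
  have p1 : 54*(z-e)*e^2 ≤ 54 * (1/2:ℝ) * (1/400)^2 := by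
    have : 0 ≤ e^2 := sq_nonneg _
    nlinarith
  have q1 : 0 ≤ L^2*(3*z^2+4*z*e+6*e^2) - L*(2*z^2+z*e+4*e^2) := by
    have : L^2*(3*z^2+4*z*e+6*e^2) - L*(2*z^2+z*e+4*e^2) =
      (3*L^2 - 2*L)*z^2 + (4*L^2 - L)*(z*e) + (6*L^2-4*L)*e^2 := by ring
    rw [this]
    have d1 : 0 ≤ (3*L^2 - 2*L) := by linarith
    have d2 : 0 ≤ (4*L^2 - L) := by linarith
    have d3 : 0 ≤ (6*L^2-4*L) := by linarith
    have : 0 ≤ z := by linarith
    positivity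
  have q2 : 2*L*z ≤ 1.4 * z := by nlinarith
  unfold W
  norm_num at p3 p2' p1 eee
  nlinarith

/-- the final inequality -/
theorem final_poly {L e τ : ℝ} (h1 : (0.693147 : ℝ) < L) (h2 : L < (0.693148 : ℝ)) (he : 0 < e)
    (he2 : e ≤ 1/400) (hτ : τ * (2 - e) = 2 * (1 - e) * e) :
    2 < exp (L * τ) * (1 + W L e e) := by
  obtain ⟨⟨a2, b2⟩, ⟨a3, b3⟩, ⟨a4, b4⟩, ⟨a5, b5⟩⟩ := powL h1 h2
  have hd : 0 < 2 - e := by linarith
  have ht : e - e^2/2 - e^3/2 ≤ τ := by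
    by_contra hcon
    rw [not_le] at hcon
    have : 0 < e^3 := by positivity
    have : 0 < e^4 := by positivity
    have h5 : τ * (2 - e) < (e - e^2/2 - e^3/2) * (2 - e) := mul_lt_mul_of_pos_right hcon hd
    rw [hτ] at h5
    nlinarith
  have ht0 : 0 ≤ e - e^2/2 - e^3/2 := by
    have : e^2 ≤ e/400 := by nlinarith
    have : e^3 ≤ e/400 := by nlinarith [sq_nonneg e]
    linarith
  have hq := Real.quadratic_le_exp_of_nonneg (show 0 ≤ L * τ by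
    have : 0 ≤ τ := ht0.trans ht
    have : 0 ≤ L := by linarith
    positivity)
  have hW : 0 ≤ 1 + W L e e := by
    have := W_ge h1 h2 he he2 le_rfl (by linarith)
    linarith
  set t := e - e^2/2 - e^3/2 with htdef
  have hq2 : 1 + L*t + (L*t)^2/2 ≤ exp (L*τ) := by
    refine le_trans ?_ hq
    have b1 : L*t ≤ L*τ := mul_le_mul_of_nonneg_left ht (by linarith)
    have b2 : (L*t)^2 ≤ (L*τ)^2 := pow_le_pow_left₀ (by
      have : 0 ≤ L := by linarith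
      positivity) b1 2
    linarith
  refine lt_of_lt_of_le ?_ (mul_le_mul_of_nonneg_right hq2 hW)
  have hWe : 1 + W L e e = 2 - 2*L*e + (13*L^2 - 7*L)*e^2 - 80*e^3 := by
    unfold W
    ring
  rw [hWe, htdef]
  have he3 : 0 < e^2 := by positivity
  have key : (1 + L*(e - e^2/2 - e^3/2) + (L*(e - e^2/2 - e^3/2))^2/2) *
      (2 - 2*L*e + (13*L^2 - 7*L)*e^2 - 80*e^3) = 2 + e^2 * ((12*L^2 - 8*L)
        - (80 + L + 7*L^2 - 12*L^3)*e - (80*L - 15/4*L^2 + 9*L^3 - 13/2*L^4)*e^2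
        + (40*L - 36*L^2 - 9/4*L^3 - 13/2*L^4)*e^3 + (40*L + 161/4*L^2 + 17/8*L^3 - 39/8*L^4)*e^4
        + (30*L^2 - 2*L^3 + 13/4*L^4)*e^5 - (20*L^2 + 7/8*L^3 - 13/8*L^4)*e^6
        - 10*L^2*e^7) := by
    ring
  rw [key]
  have c2 : 0.2202 ≤ (12*L^2 - 8*L) := by linarith
  have c3 : (80 + L + 7*L^2 - 12*L^3) ≤ 81 := by linarith
  have c4 : (80*L - 15/4*L^2 + 9*L^3 - 13/2*L^4) ≤ 56 := by linarith
  have c5 : 0 ≤ (40*L - 36*L^2 - 9/4*L^3 - 13/2*L^4) := by linarith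
  have c6 : 0 ≤ (40*L + 161/4*L^2 + 17/8*L^3 - 39/8*L^4) := by linarith
  have c7 : 0 ≤ (30*L^2 - 2*L^3 + 13/4*L^4) := by linarith
  have c8 : (20*L^2 + 7/8*L^3 - 13/8*L^4) ≤ 10 := by linarith
  have c9 : 10*L^2 ≤ 5 := by linarith
  have e1 : (80 + L + 7*L^2 - 12*L^3)*e ≤ 81 * (1/400) := by
    have : 0 ≤ (80 + L + 7*L^2 - 12*L^3) := by linarith
    exact mul_le_mul c3 he2 he.le (by norm_num)
  have e2 : (80*L - 15/4*L^2 + 9*L^3 - 13/2*L^4)*e^2 ≤ 56 * (1/400)^2 :=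
    mul_le_mul c4 (pow_le_pow_left₀ he.le he2 2) (by positivity) (by norm_num)
  have e3 : 0 ≤ (40*L - 36*L^2 - 9/4*L^3 - 13/2*L^4)*e^3 := by positivity
  have e4 : 0 ≤ (40*L + 161/4*L^2 + 17/8*L^3 - 39/8*L^4)*e^4 := by positivity
  have e5 : 0 ≤ (30*L^2 - 2*L^3 + 13/4*L^4)*e^5 := by positivity
  have e6 : (20*L^2 + 7/8*L^3 - 13/8*L^4)*e^6 ≤ 10 * (1/400)^6 :=
    mul_le_mul c8 (pow_le_pow_left₀ he.le he2 6) (by positivity) (by norm_num)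
  have e7 : 10*L^2*e^7 ≤ 5 * (1/400)^7 :=
    mul_le_mul c9 (pow_le_pow_left₀ he.le he2 7) (by positivity) (by norm_num)
  have : 0 < ((12*L^2 - 8*L)
        - (80 + L + 7*L^2 - 12*L^3)*e - (80*L - 15/4*L^2 + 9*L^3 - 13/2*L^4)*e^2
        + (40*L - 36*L^2 - 9/4*L^3 - 13/2*L^4)*e^3 + (40*L + 161/4*L^2 + 17/8*L^3 - 39/8*L^4)*e^4
        + (30*L^2 - 2*L^3 + 13/4*L^4)*e^5 - (20*L^2 + 7/8*L^3 - 13/8*L^4)*e^6
        - 10*L^2*e^7) := by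
    norm_num at e1 e2 e6 e7
    linarith
  have := mul_pos he3 this
  linarith

end Pool.Agent.N685.PS
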