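import Mathlib
import Pool.Agent.N685.T2

set_option autoImplicit false

namespace Pool.Agent.N685.PS

open Real

/-- `k ^ n = (k+1) ^ n * exp (- n log ((k+1)/k))` -/
theorem pow_eq (k n : ℕ) (hk : 1 ≤ k) :
    (k:ℝ)^n = ((k:ℝ)+1)^n * exp (-(n * log (((k:ℝ)+1)/k))) := by
  have hk0 : (0:ℝ) < k := by exact_mod_cast hk
  have h1 : exp (-(n * log (((k:ℝ)+1)/k))) = ((k:ℝ)/(k+1))^n := by
    rw [← mul_neg, ← Real.log_inv, inv_div, mul_comm, Real.exp_mul, Real.exp_log (by positivity),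
      Real.rpow_natCast]
  rw [h1, div_pow]
  field_simp

theorem hA (m n : ℕ) (hm : 2 ≤ m) (h : (1 - 1 / (m:ℝ))^n > 1/2) :
    (n:ℝ) * log ((m:ℝ)/(m-1)) ≤ log 2 := by
  have hm0 : (2:ℝ) ≤ m := by exact_mod_cast hm
  have h1 : (1 - 1 / (m:ℝ)) = ((m:ℝ)-1)/m := by field_simp
  have h2 : 0 < ((m:ℝ)-1)/m := by
    apply div_pos <;> linarith
  have h3 := Real.log_lt_log (by norm_num) h
  rw [h1, Real.log_pow, one_div, Real.log_inv] at h3
  have h4 : log (((m:ℝ)-1)/m) = - log ((m:ℝ)/(m-1)) := by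
    rw [← Real.log_inv, inv_div]
  rw [h4] at h3
  linarith

theorem hB (m n : ℕ) (hm : 2 ≤ m) (h : (n:ℝ) * log ((m:ℝ)/(m-1)) ≤ log 2) :
    (n:ℝ) ≤ log 2 * (m - 1/2) := by
  have hm0 : (2:ℝ) ≤ m := by exact_mod_cast hm
  have hm1 : (0:ℝ) < m - 1 := by linarith
  have h1 := Real.le_log_one_add_of_nonneg (show (0:ℝ) ≤ 1/((m:ℝ)-1) by positivity)
  have h2 : 1 + 1/((m:ℝ)-1) = (m:ℝ)/(m-1) := by field_simp; ring
  rw [h2] at h1
  have h3 : 2 * (1/((m:ℝ)-1)) / (1/((m:ℝ)-1) + 2) = 1/(m - 1/2) := by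
    have : (m:ℝ) - 1/2 ≠ 0 := by linarith
    have h4 : (1/((m:ℝ)-1) + 2) = (2*m-1)/(m-1) := by field_simp; ring
    rw [h4]
    have : (2*(m:ℝ)-1) ≠ 0 := by linarith
    field_simp
  rw [h3] at h1
  have h5 : (n:ℝ) * (1/(m-1/2)) ≤ log 2 := (mul_le_mul_of_nonneg_left h1 (Nat.cast_nonneg n)).trans h
  have h6 : (0:ℝ) < m - 1/2 := by linarith
  rw [mul_one_div, div_le_iff₀ h6] at h5
  exact h5

theorem hC (m n k : ℕ) (hk : 1 ≤ k) (hkm : k + 1 ≤ m) (hm : 2 ≤ m)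
    (h : (n:ℝ) * log ((m:ℝ)/(m-1)) ≤ log 2) :
    (n:ℝ) * log (((k:ℝ)+1)/k) ≤ log 2 + log 2 * (((m:ℝ)-k-1)*(2*m-1)/(2*m*k)) := by
  have hm0 : (2:ℝ) ≤ m := by exact_mod_cast hm
  have hk0 : (1:ℝ) ≤ k := by exact_mod_cast hk
  have hkm0 : (k:ℝ)+1 ≤ m := by exact_mod_cast hkm
  have hm1 : (0:ℝ) < m - 1 := by linarith
  have hmp : (0:ℝ) < m := by linarith
  have hkp : (0:ℝ) < k := by linarith
  have e1 : ((k:ℝ)+1)/k = ((m:ℝ)/(m-1)) * (1 + ((m:ℝ)-k-1)/(m*k)) := by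
    field_simp
    ring
  have hnn : 0 ≤ ((m:ℝ)-k-1)/(m*k) := div_nonneg (by linarith) (by positivity)
  have e2 : log (((k:ℝ)+1)/k) ≤ log ((m:ℝ)/(m-1)) + ((m:ℝ)-k-1)/(m*k) := by
    rw [e1, Real.log_mul (by positivity) (by positivity)]
    have := Real.log_le_sub_one_of_pos (show 0 < 1 + ((m:ℝ)-k-1)/(m*k) by positivity)
    linarith
  have e3 := hB m n hm h
  have e4 : (n:ℝ) * (((m:ℝ)-k-1)/(m*k)) ≤ log 2 * (m - 1/2) * (((m:ℝ)-k-1)/(m*k)) :=
    mul_le_mul_of_nonneg_right e3 hnn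
  have e5 : log 2 * ((m:ℝ) - 1/2) * (((m:ℝ)-k-1)/(m*k)) =
      log 2 * (((m:ℝ)-k-1)*(2*m-1)/(2*m*k)) := by
    field_simp
  have e6 : (n:ℝ) * log (((k:ℝ)+1)/k) ≤ (n:ℝ) * (log ((m:ℝ)/(m-1)) + ((m:ℝ)-k-1)/(m*k)) :=
    mul_le_mul_of_nonneg_left e2 (Nat.cast_nonneg n)
  rw [mul_add] at e6
  linarith

theorem log_le_half {y : ℝ} (hy : 1 ≤ y) : log y ≤ (y - y⁻¹)/2 := by
  have h := Real.self_le_sinh_iff.2 (Real.log_nonneg hy)
  rw [Real.sinh_eq, Real.exp_neg, Real.exp_log (by linarith)] at h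
  exact h

theorem hD (m n : ℕ) (hm : 2 ≤ m) (h : (n:ℝ) * log ((m:ℝ)/(m-1)) ≤ log 2) :
    (n:ℝ) * log (((m:ℝ)+1)/m) ≤ log 2 - log 2 * (2*(m-1)/(m*(2*m-1))) := by
  have hm0 : (2:ℝ) ≤ m := by exact_mod_cast hm
  have hm1 : (0:ℝ) < m - 1 := by linarith
  have hmp : (0:ℝ) < m := by linarith
  have h2m : (0:ℝ) < 2*m-1 := by linarith
  set l := log ((m:ℝ)/(m-1)) with hl
  have hlpos : 0 < l := Real.log_pos (by rw [lt_div_iff₀ hm1]; linarith)
  have e1 : ((m:ℝ)+1)/m = ((m:ℝ)/(m-1)) * (1 - 1/m^2) := by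
    field_simp
    ring
  have hp : 0 < 1 - 1/(m:ℝ)^2 := by
    have : 1/(m:ℝ)^2 < 1 := by
      rw [div_lt_one (by positivity)]
      nlinarith
    linarith
  have e2 : log (((m:ℝ)+1)/m) ≤ l - 1/m^2 := by
    rw [e1, Real.log_mul (by positivity) hp.ne']
    have := Real.log_le_sub_one_of_pos hp
    linarith
  have e3 : l ≤ (2*m-1)/(2*m*(m-1)) := by
    have h1 : 1 ≤ (m:ℝ)/(m-1) := by rw [le_div_iff₀ hm1]; linarith
    refine (log_le_half h1).trans (le_of_eq ?_)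
    rw [inv_div]
    field_simp
    ring
  -- 1/m^2 ≥ l * τ
  have e4 : l * (2*(m-1)/(m*(2*m-1))) ≤ 1/m^2 := by
    refine (mul_le_mul_of_nonneg_right e3 (by positivity)).trans (le_of_eq ?_)
    field_simp
  have e5 : (n:ℝ) * log (((m:ℝ)+1)/m) ≤ n * (l * (1 - (2*(m-1)/(m*(2*m-1))))) := by
    apply mul_le_mul_of_nonneg_left _ (Nat.cast_nonneg n)
    linarith
  have e6 : 0 ≤ 1 - (2*((m:ℝ)-1)/(m*(2*m-1))) := by
    have : 2*((m:ℝ)-1)/(m*(2*m-1)) ≤ 1 := by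
      rw [div_le_one (by positivity)]
      nlinarith
    linarith
  have e7 : (n:ℝ) * (l * (1 - (2*(m-1)/(m*(2*m-1))))) ≤ log 2 * (1 - (2*(m-1)/(m*(2*m-1)))) := by
    rw [← mul_assoc]
    exact mul_le_mul_of_nonneg_right h e6
  linarith

theorem Lb : (0.693147 : ℝ) < log 2 ∧ log 2 < (0.693148 : ℝ) := by
  constructor
  · have := Real.log_two_gt_d9; linarith
  · have := Real.log_two_lt_d9; linarith

theorem induct (m n : ℕ) (hm : 400 ≤ m) (h : (n:ℝ) * log ((m:ℝ)/(m-1)) ≤ log 2) :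
    ∀ k : ℕ, k + 1 ≤ m → W (log 2) (1/m) ((m-k)*(1/m)) * ((k:ℝ)+1)^n ≤
      ∑ i ∈ Finset.Icc 1 k, (i:ℝ)^n := by
  have hm0 : (400:ℝ) ≤ m := by exact_mod_cast hm
  have hmp : (0:ℝ) < m := by linarith
  have he : (0:ℝ) < 1/m := by positivity
  have he2 : 1/(m:ℝ) ≤ 1/400 := one_div_le_one_div_of_le (by norm_num) hm0
  intro k
  induction k with
  | zero =>
    intro _
    have e1 : (((m:ℝ) - ((0:ℕ):ℝ))*(1/m)) = 1 := by
      push_cast; field_simp; simp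
    rw [e1]
    have := W_nonpos Lb.1 Lb.2 he he2 (show (1:ℝ)/2 ≤ 1 by norm_num) le_rfl
    simpa using this
  | succ k ih =>
    intro hk
    have ihk := ih (by omega)
    have hkm : ((k:ℝ)+1)+1 ≤ m := by exact_mod_cast hk
    set z : ℝ := ((m:ℝ) - ((k+1:ℕ):ℝ))*(1/m) with hz
    have hz' : z = 1 - (k+1) * (1/m) := by
      rw [hz]; push_cast; field_simp
    have hzs : ((m:ℝ) - (k:ℝ))*(1/m) = z + 1/m := by
      rw [hz']; field_simp; ring
    rw [hzs] at ihk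
    rcases le_or_gt (1/2) z with hc | hc
    · have h1 : z ≤ 1 := by
        rw [hz']
        have : 0 ≤ ((k:ℝ)+1) * (1/m) := by positivity
        linarith
      have h2 := W_nonpos Lb.1 Lb.2 he he2 hc h1
      have h3 : 0 ≤ ∑ i ∈ Finset.Icc 1 (k+1), (i:ℝ)^n := Finset.sum_nonneg (fun i _ => by positivity)
      refine le_trans ?_ h3
      exact mul_nonpos_of_nonpos_of_nonneg h2 (by positivity)
    · rw [Finset.sum_Icc_succ_top (by omega)]
      set u : ℝ := z - 1/m with hu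
      have hu0 : 0 ≤ u := by
        have : u = ((m:ℝ) - (k+1) - 1) * (1/m) := by
          rw [hu, hz']; field_simp
        rw [this]
        apply mul_nonneg _ he.le
        linarith
      have hue : u + 1/m ≤ 1/2 := by rw [hu]; linarith
      set σ : ℝ := (((m:ℝ)-((k+1:ℕ):ℝ)-1)*(2*m-1)/(2*m*((k+1:ℕ):ℝ))) with hσ
      have hσe : σ * (1 - u - 1/m) = u * (1 - (1/m)/2) := by
        have h1 : 1 - u - 1/(m:ℝ) = ((k:ℝ)+1)/m := by
          rw [hu, hz']; field_simp; ring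
        have h2 : u = ((m:ℝ) - (k+1) - 1) /m := by
          rw [hu, hz']; field_simp
        rw [h1, h2, hσ]
        push_cast
        have : (k:ℝ) + 1 ≠ 0 := by positivity
        field_simp
      have hEs := exp_Es (L := log 2) (by have := Lb.1; linarith) he hu0 hue hσe
      have hst := step_poly Lb.1 Lb.2 he hu0
      have hzu : u + 1/m = z := by rw [hu]; ring
      have hzu2 : u + 2 * (1/m) = z + 1/m := by rw [hu]; ring
      rw [hzu, hzu2] at hst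
      have hWge : -1 ≤ W (log 2) (1/m) (z + 1/m) := by
        apply W_ge Lb.1 Lb.2 he he2
        · have : 0 ≤ z := by rw [← hzu]; positivity
          linarith
        · linarith
      have hCk := hC m n (k+1) (by omega) (by omega) (by omega) h
      rw [← hσ] at hCk
      have hpw := pow_eq (k+1) n (by omega)
      have hexp : exp (-(log 2 + log 2 * σ)) ≤ exp (-(n * log ((((k+1:ℕ):ℝ)+1)/((k+1:ℕ):ℝ)))) :=
        Real.exp_le_exp.2 (by linarith)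
      have hexp2 : exp (-(log 2 + log 2 * σ)) = 1/2 * exp (-(log 2 * σ)) := by
        rw [neg_add, Real.exp_add, Real.exp_neg, Real.exp_log (by norm_num)]
        norm_num
      have hP : 0 < (((k+1:ℕ):ℝ)+1)^n := by positivity
      have hk1 : (((k+1:ℕ):ℝ))^n = ((k:ℝ)+1)^n := by push_cast; rfl
      have h5 : (((k+1:ℕ):ℝ)+1)^n * (1/2 * Es (log 2) (1/m) u) ≤ (((k+1:ℕ):ℝ))^n := by
        rw [hpw]
        apply mul_le_mul_of_nonneg_left _ hP.le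
        rw [hexp2] at hexp
        refine le_trans ?_ hexp
        linarith
      have h6 : (1 + W (log 2) (1/m) (z + 1/m)) * ((((k+1:ℕ):ℝ)+1)^n * (1/2 * Es (log 2) (1/m) u))
          ≤ (1 + W (log 2) (1/m) (z + 1/m)) * (((k+1:ℕ):ℝ))^n :=
        mul_le_mul_of_nonneg_left h5 (by linarith)
      have h7 : W (log 2) (1/m) z * (((k+1:ℕ):ℝ)+1)^n ≤
          (1 + W (log 2) (1/m) (z + 1/m)) * ((((k+1:ℕ):ℝ)+1)^n * (1/2 * Es (log 2) (1/m) u)) := by
        have h8 := mul_le_mul_of_nonneg_right hst hP.le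
        nlinarith
      rw [hk1] at h6 ⊢
      linarith

theorem big (m n : ℕ) (hm : 400 ≤ m) (h : (1 - 1 / (m:ℝ))^n > 1/2) :
    (m+1)^n < ∑ i ∈ Finset.Icc 1 m, i^n := by
  have hm0 : (400:ℝ) ≤ m := by exact_mod_cast hm
  have hmp : (0:ℝ) < m := by linarith
  have he : (0:ℝ) < 1/m := by positivity
  have he2 : 1/(m:ℝ) ≤ 1/400 := one_div_le_one_div_of_le (by norm_num) hm0
  have hA' := hA m n (by omega) h
  have h1 := induct m n hm hA' (m-1) (by omega)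
  have hcast : ((m-1:ℕ):ℝ) = (m:ℝ) - 1 := by
    rw [Nat.cast_sub (by omega)]; simp
  rw [hcast] at h1
  have e1 : ((m:ℝ) - ((m:ℝ)-1)) * (1/m) = 1/m := by ring
  have e2 : (m:ℝ) - 1 + 1 = m := by ring
  rw [e1, e2] at h1
  set τ : ℝ := 2*((m:ℝ)-1)/(m*(2*m-1)) with hτ
  have h2m : (2*(m:ℝ)-1) ≠ 0 := by linarith
  have hτe : τ * (2 - 1/m) = 2 * (1 - 1/m) * (1/m) := by
    rw [hτ]; field_simp
  have h2 := final_poly Lb.1 Lb.2 he he2 hτe
  have h3 := hD m n (by omega) hA'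
  rw [← hτ] at h3
  have h4 := pow_eq m n (by omega)
  have hexp : exp (-(log 2 - log 2 * τ)) ≤ exp (-(n * log (((m:ℝ)+1)/m))) :=
    Real.exp_le_exp.2 (by linarith)
  have hexp2 : exp (-(log 2 - log 2 * τ)) = 1/2 * exp (log 2 * τ) := by
    rw [neg_sub, sub_eq_add_neg, Real.exp_add, Real.exp_neg, Real.exp_log (by norm_num)]
    ring
  have hP : 0 < ((m:ℝ)+1)^n := by positivity
  have h5 : ((m:ℝ)+1)^n * (1/2 * exp (log 2 * τ)) ≤ (m:ℝ)^n := by
    rw [h4]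
    apply mul_le_mul_of_nonneg_left _ hP.le
    rw [hexp2] at hexp
    exact hexp
  have hW : 0 ≤ 1 + W (log 2) (1/m) (1/m) := by
    have := W_ge Lb.1 Lb.2 he he2 le_rfl (by linarith)
    linarith
  have h6 : ((m:ℝ)+1)^n < (m:ℝ)^n * (1 + W (log 2) (1/m) (1/m)) := by
    have h7 := mul_le_mul_of_nonneg_right h5 hW
    have h8 := mul_lt_mul_of_pos_left h2 hP
    nlinarith
  have h9 : ∑ i ∈ Finset.Icc 1 m, (i:ℝ)^n = ∑ i ∈ Finset.Icc 1 (m-1), (i:ℝ)^n + (m:ℝ)^n := by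
    have : m = (m - 1) + 1 := by omega
    conv_lhs => rw [this]
    rw [Finset.sum_Icc_succ_top (by omega)]
    congr 2
    rw [← this]
  have h10 : ((m:ℝ)+1)^n < ∑ i ∈ Finset.Icc 1 m, (i:ℝ)^n := by
    rw [h9]; nlinarith
  exact_mod_cast h10

end Pool.Agent.N685.PS
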