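import Mathlib

set_option autoImplicit false

namespace Pool.Agent.N685.PS

/-- sum of the `n`-th powers of `1, ..., k` -/
def S (n : ℕ) (k : ℕ) : ℕ := Nat.rec 0 (fun j r => r + (j+1)^n) k

theorem S_eq (n k : ℕ) : S n k = ∑ i ∈ Finset.Icc 1 k, i^n := by
  induction k with
  | zero => simp [S]
  | succ k ih =>
    rw [Finset.sum_Icc_succ_top (by omega), ← ih]
    rfl

def chk (m n : ℕ) : Bool :=
  bif Nat.ble (2*(m-1)^n) (m^n) then true else
  bif Nat.ble ((m-1)^n) (2*(m-2)^n) then true else
  Nat.blt ((m+1)^n) (S n m)

def chkAll (m : ℕ) : ℕ → Bool := fun N => Nat.rec true (fun n r => bif chk m n then r else false) N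

def chkAll2 : ℕ → Bool := fun M => Nat.rec true (fun m r => bif chkAll m m then r else false) M

theorem chkAll_spec (m N : ℕ) (h : chkAll m N = true) : ∀ n < N, chk m n = true := by
  induction N with
  | zero => intro n hn; omega
  | succ N ih =>
    intro n hn
    have h1 : (bif chk m N then chkAll m N else false) = true := h
    cases h2 : chk m N with
    | false => rw [h2] at h1; simp at h1
    | true =>
      rw [h2] at h1
      simp at h1
      rcases Nat.lt_succ_iff_lt_or_eq.1 hn with h3 | h3
      · exact ih h1 n h3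
      · rw [h3]; exact h2

theorem chkAll2_spec (M : ℕ) (h : chkAll2 M = true) : ∀ m < M, chkAll m m = true := by
  induction M with
  | zero => intro n hn; omega
  | succ N ih =>
    intro n hn
    have h1 : (bif chkAll N N then chkAll2 N else false) = true := h
    cases h2 : chkAll N N with
    | false => rw [h2] at h1; simp at h1
    | true =>
      rw [h2] at h1
      simp at h1
      rcases Nat.lt_succ_iff_lt_or_eq.1 hn with h3 | h3
      · exact ih h1 n h3
      · rw [h3]; exact h2

theorem c400 : chkAll2 400 = true := by decide +kernel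

theorem small (m n : ℕ) (hm : m < 400) (hn : n < m) (h1 : m^n < 2*(m-1)^n)
    (h2 : 2*(m-2)^n < (m-1)^n) : (m+1)^n < ∑ i ∈ Finset.Icc 1 m, i^n := by
  have h := chkAll_spec m m (chkAll2_spec 400 c400 m hm) n hn
  unfold chk at h
  have a1 : Nat.ble (2*(m-1)^n) (m^n) = false := by
    rw [← Bool.not_eq_true, Nat.ble_eq]; omega
  have a2 : Nat.ble ((m-1)^n) (2*(m-2)^n) = false := by
    rw [← Bool.not_eq_true, Nat.ble_eq]; omega
  rw [a1, a2] at h
  simp only [cond_false] at h
  rw [← S_eq]
  exact Nat.blt_eq.mp h

end Pool.Agent.N685.PS
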